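import Mathlib
import Pool.Agent.H74.KP3
import Pool.Agent.H74.Klein

set_option autoImplicit false

namespace Pool.Agent.Results.MP_ffafe4_gt.Klein

open Set Topology Pool.Agent.H74.Klein

/-- Y is an Eilenberg-MacLane space K(Q,1): path connected, fundamental group Q, and all higher
homotopy groups trivial. -/
def IsKOne (Q : Type) [Group Q] (Y : Type) [TopologicalSpace Y] : Prop :=
  PathConnectedSpace Y ∧ ∃ y₀ : Y, Nonempty (FundamentalGroup Y y₀ ≃* Q) ∧
    ∀ n, 2 ≤ n → Subsingleton (HomotopyGroup.Pi n Y y₀)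

/-- Y is finitely dominated: a homotopy retract of a finite (Hausdorff) CW complex K. -/
def FinDom (Y : Type) [TopologicalSpace Y] : Prop :=
  ∃ (K : Type) (_ : TopologicalSpace K) (_ : T2Space K) (_ : CWComplex (univ : Set K)),
    RelCWComplex.Finite (univ : Set K) ∧
    ∃ (i : C(Y, K)) (r : C(K, Y)), (r.comp i).Homotopic (ContinuousMap.id Y)

/-- The endomorphism of the fundamental group of X induced by q ∘ h. -/
noncomputable def hs {X X' : Type} [TopologicalSpace X] [TopologicalSpace X'] {x₀ : X} {x₀' : X'}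
    (q : C(X', X)) (h : C(X, X')) (hq : q x₀' = x₀) (hh : h x₀ = x₀') :
    Monoid.End (FundamentalGroup X x₀) :=
  FundamentalGroup.mapOfEq (q.comp h) ((congrArg q hh).trans hq)

noncomputable def f : E ≃ₜ E := (Homeomorph.refl ℝ).prodCongr
  ((Homeomorph.mulLeft₀ (3 : ℝ) (by norm_num)).trans (Homeomorph.addRight 1))

theorem f_def (x : E) : f x = (x.1, 3 * x.2 + 1) := rfl

def φ (g : G) : G := ⟨g.m, 3 * g.k + g.m % 2⟩

theorem f_smul (g : G) (x : E) : f (g • x) = φ g • f x := by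
  simp only [f_def, smul_def, φ, sg, Prod.mk.injEq, true_and]
  rcases Int.emod_two_eq_zero_or_one g.m with h | h <;> simp [h] <;> ring

noncomputable def q : C(X, X) :=
  ⟨Quotient.lift (p ∘ f) fun a b ⟨g, hg⟩ => p_eq.2 ⟨φ g, by rw [← f_smul]; exact congrArg f hg⟩,
    (cont_p.comp f.continuous).quotient_lift _⟩

theorem q_p (x : E) : q (p x) = p (f x) := rfl

theorem cov_q : IsCoveringMap q := by
  have h1 := hp.isCoveringMap.isLocalHomeomorph
  rw [← isLocalHomeomorph_iff_isCoveringMap, isLocalHomeomorph_iff_isLocalHomeomorphOn_univ,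
    ← hp.surjective.range_eq, ← image_univ]
  exact IsLocalHomeomorphOn.of_comp_right
    (h1.comp f.isLocalHomeomorph).isLocalHomeomorphOn h1.isLocalHomeomorphOn

theorem deg_q (x : X) : (q ⁻¹' {x}).ncard = 3 := by
  obtain ⟨x, rfl⟩ := hp.surjective x
  obtain ⟨x, rfl⟩ := f.surjective x
  let c : Fin 3 → X := fun j => p (x.1, x.2 + 2 * (j : ℕ) / 3)
  have hc : ∀ j : ℕ, f (x.1, x.2 + 2 * j / 3) = (⟨0, j⟩ : G) • f x := fun j => by
    simp only [f_def, smul_def, sg_zero]; push_cast; ext <;> simp only <;> ring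
  have h1 : q ⁻¹' {p (f x)} = range c := by
    ext y
    obtain ⟨y, rfl⟩ := hp.surjective y
    constructor
    · intro h
      obtain ⟨g, hg⟩ := p_eq.1 (show p (f y) = p (f x) from h)
      obtain ⟨j, k, hj, e⟩ : ∃ (j : ℕ) (k : ℤ), j < 3 ∧ g.k = 3 * k + g.m % 2 + sg g.m * j := by
        unfold sg
        split_ifs with h
        · exact ⟨(g.k % 3).toNat, g.k / 3, by omega, by omega⟩
        · exact ⟨((1 - g.k) % 3).toNat, -((1 - g.k) / 3), by omega, by omega⟩
      refine ⟨⟨j, hj⟩, (p_eq.2 ⟨⟨g.m, k⟩, f.injective ?_⟩).symm⟩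
      rw [f_smul, hc, ← mul_smul, ← hg]
      congr 1
      exact G.ext (by simp [mul_def, φ]) (by simp [mul_def, φ, e])
    · rintro ⟨j, hj⟩
      rw [← hj]
      exact p_eq.2 ⟨_, (hc j).symm⟩
  have h2 : Function.Injective c := fun i j h => by
    have a : ((i : ℕ) : ℝ) < 3 := by exact_mod_cast i.2
    have b : ((j : ℕ) : ℝ) < 3 := by exact_mod_cast j.2
    have := congrArg Prod.snd (p_inj h (by simp) (by simp)
      (by simp only; linarith [Nat.cast_nonneg (α := ℝ) j])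
      (by simp only; linarith [Nat.cast_nonneg (α := ℝ) i]))
    exact Fin.ext (Nat.cast_injective (R := ℝ) (by simp only at this; linarith))
  rw [h1, ncard_range_of_injective h2]; simp

noncomputable def e₀ : E := (0, -1 / 2)

theorem f_e₀ : f e₀ = e₀ := by norm_num [f_def, e₀]

theorem q_e₀ : q (p e₀) = p e₀ := congrArg p f_e₀

noncomputable def Ψ : FundamentalGroup X (p e₀) ≃* Gᵐᵒᵖ := hp.fundamentalGroupEquiv ⟨e₀, rfl⟩

noncomputable def Φ : Monoid.End (FundamentalGroup X (p e₀)) :=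
  hs q (Homeomorph.refl X) q_e₀ rfl

theorem Ψ_mk (c : Path (p e₀) (p e₀)) : (Ψ (FundamentalGroup.fromPath ⟦c⟧)).unop • e₀ =
    hp.isCoveringMap.liftPath c e₀ c.source 1 :=
  hp.unop_fundamentalGroupToMulOpposite_smul (e := ⟨e₀, rfl⟩)

theorem hs_mk {X X' : Type} [TopologicalSpace X] [TopologicalSpace X'] {x₀ : X} {x₀' : X'}
    (q : C(X', X)) (h : C(X, X')) (hq : q x₀' = x₀) (hh : h x₀ = x₀') (c : Path x₀ x₀) :
    ∃ c' : Path x₀ x₀, (∀ t, c' t = q (h (c t))) ∧
      hs q h hq hh (FundamentalGroup.fromPath ⟦c⟧) = FundamentalGroup.fromPath ⟦c'⟧ :=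
  ⟨(c.map (q.comp h).continuous).cast ((congrArg q hh).trans hq).symm
    ((congrArg q hh).trans hq).symm, fun _ => rfl, FundamentalGroup.mapOfEq_apply _ _ _⟩

theorem Φ_mk (c : Path (p e₀) (p e₀)) : ∃ c' : Path (p e₀) (p e₀), (∀ t, c' t = q (c t)) ∧
    Φ (FundamentalGroup.fromPath ⟦c⟧) = FundamentalGroup.fromPath ⟦c'⟧ := by
  unfold Φ
  exact hs_mk q (Homeomorph.refl X) q_e₀ rfl c

theorem lift_q (c c' : Path (p e₀) (p e₀)) (h : ∀ t, c' t = q (c t)) :
    hp.isCoveringMap.liftPath c' e₀ c'.source 1 =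
      f (hp.isCoveringMap.liftPath c e₀ c.source 1) := by
  have cov := hp.isCoveringMap
  have h6 : (ContinuousMap.comp ⟨f, f.continuous⟩ (cov.liftPath c e₀ c.source)) =
      cov.liftPath c' e₀ c'.source := (cov.eq_liftPath_iff' _).2
    ⟨funext fun t => (congrArg q (congrFun (cov.liftPath_lifts c e₀ c.source) t)).trans (h t).symm,
      (congrArg f (cov.liftPath_zero c e₀ c.source)).trans f_e₀⟩
  rw [← h6]
  rfl

theorem Ψ_Φ (γ : FundamentalGroup X (p e₀)) : (Ψ (Φ γ)).unop = φ (Ψ γ).unop := by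
  obtain ⟨c, rfl⟩ : ∃ c : Path (p e₀) (p e₀), γ = FundamentalGroup.fromPath ⟦c⟧ := by
    obtain ⟨c⟩ := γ; exact ⟨c, rfl⟩
  refine IsCancelSMul.right_cancel _ _ e₀ ?_
  obtain ⟨c', h1, h2⟩ := Φ_mk c
  rw [h2, Ψ_mk, lift_q c c' h1, ← Ψ_mk, f_smul, f_e₀]

noncomputable def ψ : FundamentalGroup X (p e₀) →* DihedralGroup 0 := MonoidHom.mk'
  (fun γ => if (Ψ γ).unop.m % 2 = 0 then .r (Ψ γ).unop.k else .sr (Ψ γ).unop.k) fun a b => by
    simp only [map_mul, MulOpposite.unop_mul, mul_def, sg]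
    split_ifs <;> first | omega | exact congrArg _ (by change (_ : ℤ) = (_ : ℤ) + _; ring)

theorem mem_ker {γ : FundamentalGroup X (p e₀)} :
    γ ∈ ψ.ker ↔ (Ψ γ).unop.m % 2 = 0 ∧ (Ψ γ).unop.k = 0 := by
  rw [MonoidHom.mem_ker, ψ, MonoidHom.mk'_apply, DihedralGroup.one_def]
  split_ifs with h
  · simp only [DihedralGroup.r.injEq, h, true_and]; rfl
  · simp [h]

theorem ψ_surj : Function.Surjective ψ := by
  rintro (k | k)
  · exact ⟨Ψ.symm (.op ⟨0, k⟩), by simp [ψ]⟩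
  · exact ⟨Ψ.symm (.op ⟨1, k⟩), by simp [ψ]⟩

theorem ker_eq : ψ.ker = ⨅ k ≥ 1, MonoidHom.range (Φ ^ k : Monoid.End _) := by
  ext γ
  simp only [mem_ker, Subgroup.mem_iInf, MonoidHom.mem_range]
  constructor
  · rintro ⟨h1, h2⟩ k -
    have : Φ γ = γ := Ψ.injective (MulOpposite.unop_injective (by
      rw [Ψ_Φ]; exact G.ext rfl (by simp [φ, h1, h2])))
    exact ⟨γ, (congrFun (Monoid.End.coe_pow _ Φ k) γ).trans (Function.iterate_fixed this k)⟩
  · intro h
    have key : ∀ (k : ℕ) δ, 2 * (Ψ ((Φ ^ k) δ)).unop.k + (Ψ ((Φ ^ k) δ)).unop.m % 2 =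
        3 ^ k * (2 * (Ψ δ).unop.k + (Ψ δ).unop.m % 2) := by
      intro k δ
      induction k with
      | zero => simp
      | succ k ih =>
        rw [pow_succ', Monoid.End.coe_mul, Function.comp, Ψ_Φ, pow_succ', mul_assoc, ← ih]
        simp only [φ]; ring
    have : 2 * (Ψ γ).unop.k + (Ψ γ).unop.m % 2 = 0 := by
      generalize hn : 2 * (Ψ γ).unop.k + (Ψ γ).unop.m % 2 = n
      obtain ⟨δ, rfl⟩ := h (n.natAbs + 1) (by omega)
      refine Int.eq_zero_of_dvd_of_natAbs_lt_natAbs ⟨_, hn.symm.trans (key _ δ)⟩ ?_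
      rw [Int.natAbs_pow]
      exact (Nat.lt_succ_self _).trans (Nat.lt_pow_self (by norm_num))
    omega

theorem ker_fp : Group.IsFinitelyPresented ψ.ker := by
  let u : Multiplicative ℤ →* FundamentalGroup X (p e₀) := MonoidHom.mk'
    (fun n => Ψ.symm (.op ⟨2 * n.toAdd, 0⟩)) fun a b => by
      rw [← map_mul, ← MulOpposite.op_mul, mul_def]; simp [mul_add, add_comm]
  have h1 : Function.Injective u := fun a b h => by
    simpa [u] using h
  have h2 : u.range = ψ.ker := by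
    ext γ
    rw [mem_ker]
    constructor
    · rintro ⟨n, rfl⟩; simp [u]
    · rintro ⟨a, b⟩
      refine ⟨.ofAdd ((Ψ γ).unop.m / 2), Ψ.injective (MulOpposite.unop_injective ?_)⟩
      simp only [u, MonoidHom.mk'_apply, MulEquiv.apply_symm_apply, MulOpposite.unop_op]
      exact G.ext (by simp only [toAdd_ofAdd]; omega) b.symm
  exact h2 ▸ Group.IsFinitelyPresented.equiv (MonoidHom.ofInjective h1)

def ε : DihedralGroup 0 →* Multiplicative (ZMod 2) := MonoidHom.mk'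
  (fun g => match g with | .r _ => 1 | .sr _ => .ofAdd 1) (by
    rintro (a | a) (b | b)
    exacts [rfl, rfl, rfl, (by decide : (1 : Multiplicative (ZMod 2)) = .ofAdd 1 * .ofAdd 1)])

theorem result : ∃ (X X' : Type) (_ : TopologicalSpace X) (_ : TopologicalSpace X')
    (_ : T2Space X) (_ : CWComplex (univ : Set X)) (x₀ : X) (x₀' : X') (q : C(X', X)) (h : X ≃ₜ X')
    (hq : q x₀' = x₀) (hh : h x₀ = x₀') (G : Subgroup (FundamentalGroup X x₀)) (_ : G.Normal),
    RelCWComplex.Finite (univ : Set X) ∧ PathConnectedSpace X ∧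
    IsCoveringMap q ∧ (∀ x, (q ⁻¹' {x}).ncard = 3) ∧
    G = ⨅ k ≥ 1, MonoidHom.range (hs q h hq hh ^ k : Monoid.End _) ∧
    Group.IsFinitelyPresented G ∧
    Nonempty (FundamentalGroup X x₀ ⧸ G ≃* DihedralGroup 0) ∧
    ∀ (Y : Type) [TopologicalSpace Y], IsKOne (FundamentalGroup X x₀ ⧸ G) Y → ¬FinDom Y := by
  obtain ⟨c, hc⟩ := cw
  let e := QuotientGroup.quotientKerEquivOfSurjective ψ ψ_surj
  refine ⟨X, X, inferInstance, inferInstance, inferInstance, c, p e₀, p e₀, q, .refl X, q_e₀, rfl,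
    ψ.ker, inferInstance, hc, inferInstance, cov_q, deg_q, ker_eq, ker_fp, ⟨e⟩, ?_⟩
  rintro Y _ ⟨_, y₀, ⟨i⟩, hπ⟩
  refine Pool.Agent.H74.KP.not_finDom y₀ (ε.comp (i.trans e).toMonoidHom)
    ((i.trans e).symm (.sr 0)) ?_ ?_ hπ
  · rw [← map_mul, DihedralGroup.sr_mul_self, map_one]
  · simp only [MonoidHom.comp_apply, MulEquiv.coe_toMonoidHom, MulEquiv.apply_symm_apply]
    decide

end Pool.Agent.Results.MP_ffafe4_gt.Klein
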